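import Pool.Agent.R615.KB.Nil
import Pool.Agent.Y63.NV.Stm5
import Pool.Agent.Y63.KR.Chi
import Pool.Agent.Y930.NV.Cen

/-!
# `bl(χ)^G` is defined for the irreducible characters of the stabiliser of a chain
-/

set_option autoImplicit false
set_option linter.unusedSectionVars false

open scoped Classical

noncomputable section

namespace Pool.Agent.R615.KB

open Pool.Agent.Y63.NV
open Pool.Agent.Y63.NV.B286 (conv_class single_class)
open Pool.Agent.Y63.NV.B930 (fx mem_fx sum_fixed)
open Pool.Agent.Y63.KR (IsPChain chainStabilizer exists_least)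
open Pool.Agent.Y63.AWC (IsIrreducibleCharacter)

section

variable {F : Type} [Field F]

lemma single_comp {A A' : Type} [Group A] [Group A'] (e : A →* A') (he : Function.Injective e)
    (i : DecidableEq A) (i' : DecidableEq A') :
    (fun x : A => (@Pi.single A' (fun _ => F) _ i' 1 1 : A' → F) (e x)) =
      @Pi.single A (fun _ => F) _ i 1 1 := by
  funext x
  by_cases hx : x = 1
  · subst hx
    rw [map_one, Pi.single_eq_same, Pi.single_eq_same]
  · rw [Pi.single_eq_of_ne hx, Pi.single_eq_of_ne]
    intro h
    exact hx (he (h.trans (map_one e).symm))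

/-- the restriction of class functions from `G` to the normaliser of a `p`-subgroup turns blocks
into blocks -/
theorem block_res {G : Type} [Group G] [Fintype G] {p : ℕ} [Fact p.Prime] [CharP F p]
    {Q N : Subgroup G} (hQ : IsPGroup p Q) (hN : N = Subgroup.normalizer (Q : Set G))
    {B : (N → F) → F} (hB : IsBlock B) : IsBlock (fun f : G → F => B (fun x => f x)) := by
  obtain ⟨QJ, hQJ⟩ : ∃ QJ : Subgroup N, QJ = Q.subgroupOf N := ⟨_, rfl⟩
  have hnorm : QJ.Normal := by
    subst hN
    rw [hQJ]
    exact Subgroup.normal_in_normalizer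
  have hpg : IsPGroup p QJ := by
    rw [hQJ]
    exact hQ.comap_subtype
  have hQN : Q ≤ N := by
    rw [hN]
    exact Subgroup.le_normalizer
  have hres : ∀ f : G → F, IsClassFun f → IsClassFun (fun x : N => f x) := by
    intro f hf g x
    exact hf g x
  have hcut : ∀ f : G → F, IsClassFun f →
      IsClassFun (cut (fun x : N => f x) (Subgroup.centralizer (QJ : Set N))) :=
    fun f hf => cut_cent_class hnorm (hres f hf)
  have hval : ∀ f : G → F, IsClassFun f → B (fun x => f x) =
      B (cut (fun x : N => f x) (Subgroup.centralizer (QJ : Set N))) :=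
    fun f hf => block_cut (p := p) QJ hnorm hpg hB (hres f hf)
  refine ⟨?_, ?_, ?_, ?_⟩
  · intro f g hf hg
    exact hB.add (fun x : N => f x) (fun x : N => g x) (hres f hf) (hres g hg)
  · intro a f hf
    exact hB.smul a (fun x : N => f x) (hres f hf)
  · have e := single_comp (F := F) N.subtype N.subtype_injective
      (fun a b => Classical.propDecidable (a = b)) (fun a b => Classical.propDecidable (a = b))
    exact (congrArg B e).trans hB.one
  · intro f g hf hg
    change B (fun x => conv f g x) = B (fun x => f x) * B (fun x => g x)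
    rw [hval _ (conv_class hf hg), hval f hf, hval g hg, ← hB.mul _ _ (hcut f hf) (hcut g hg)]
    congr 1
    funext x
    unfold conv
    rw [finsum_eq_sum_of_fintype]
    by_cases hx : x ∈ Subgroup.centralizer (QJ : Set N)
    · unfold cut
      rw [if_pos hx]
      show ∑ᶠ y : G, f y * g (y⁻¹ * x) = ∑ y : N,
        (if y ∈ Subgroup.centralizer (QJ : Set N) then f y else 0) *
          if y⁻¹ * x ∈ Subgroup.centralizer (QJ : Set N) then g ((y⁻¹ * x : N) : G) else 0
      rw [finsum_eq_sum_of_fintype]
      let _ : MulAction Q G := MulAction.compHom G (MulAut.conj.comp Q.subtype)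
      have hact : ∀ (q : Q) (y : G), q • y = (q : G) * y * (q : G)⁻¹ := fun q y => rfl
      have hxq : ∀ q ∈ Q, q * (x : G) = x * q := by
        intro q hq
        have h3 := Subgroup.mem_centralizer_iff.1 hx ⟨q, hQN hq⟩
          (by rw [hQJ]; exact Subgroup.mem_subgroupOf.2 hq)
        exact congrArg Subtype.val h3
      rw [sum_fixed (p := p) (Q := Q) (Y := G) hQ (fun y => f y * g (y⁻¹ * x)) (by
        intro q y
        rw [hact]
        have e1 : g (((q : G) * y * (q : G)⁻¹)⁻¹ * x) = g (y⁻¹ * x) := by
          have e2 : ((q : G) * y * (q : G)⁻¹)⁻¹ * x = (q : G) * (y⁻¹ * x) * (q : G)⁻¹ := by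
            have e3 : (q : G)⁻¹ * (x : G) = x * (q : G)⁻¹ := by
              have := hxq (q : G)⁻¹ (Q.inv_mem q.2)
              exact this
            rw [mul_inv_rev, mul_inv_rev, inv_inv, mul_assoc, mul_assoc, mul_assoc, mul_assoc, e3]
          rw [e2, hg]
        rw [e1, hf])]
      symm
      have key : ∀ y : N, ((if y ∈ Subgroup.centralizer (QJ : Set N) then f y else 0) *
          if y⁻¹ * x ∈ Subgroup.centralizer (QJ : Set N) then g ((y⁻¹ * x : N) : G) else 0) =
          if y ∈ Subgroup.centralizer (QJ : Set N) then f y * g ((y : G)⁻¹ * x) else 0 := by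
        intro y
        by_cases hy : y ∈ Subgroup.centralizer (QJ : Set N)
        · have hyx : y⁻¹ * x ∈ Subgroup.centralizer (QJ : Set N) :=
            Subgroup.mul_mem _ (Subgroup.inv_mem _ hy) hx
          rw [if_pos hy, if_pos hy, if_pos hyx]
          rfl
        · rw [if_neg hy, if_neg hy, zero_mul]
      rw [Finset.sum_congr rfl (fun y _ => key y), ← Finset.sum_filter]
      refine Finset.sum_bij (fun y _ => (y : G)) ?_ ?_ ?_ ?_
      · intro y hy
        have hy2 := (Finset.mem_filter.1 hy).2
        refine (mem_fx _).2 fun q => ?_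
        rw [hact]
        have h3 := Subgroup.mem_centralizer_iff.1 hy2 ⟨q.1, hQN q.2⟩
          (by rw [hQJ]; exact Subgroup.mem_subgroupOf.2 q.2)
        have h4 : (q : G) * (y : G) = y * q := congrArg Subtype.val h3
        rw [h4, mul_inv_cancel_right]
      · intro a _ b _ hab
        exact Subtype.ext hab
      · intro b hb
        have hb2 := (mem_fx _).1 hb
        have hbq : ∀ q ∈ Q, q * b = b * q := by
          intro q hq
          have := hb2 ⟨q, hq⟩
          rw [hact] at this
          exact mul_inv_eq_iff_eq_mul.1 this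
        have hbN : b ∈ N := by
          rw [hN, Subgroup.mem_normalizer_iff]
          intro q
          constructor
          · intro hq
            rw [← hbq q hq, mul_inv_cancel_right]
            exact hq
          · intro hq
            have h4 := hbq _ hq
            have h5 : b * (b * q * b⁻¹) = b * (q * 1) := by
              rw [← h4]
              group
            have h6 := mul_left_cancel h5
            rw [mul_one] at h6
            rw [← h6]
            exact hq
        refine ⟨⟨b, hbN⟩, ?_, rfl⟩
        refine Finset.mem_filter.2 ⟨Finset.mem_univ _, ?_⟩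
        rw [Subgroup.mem_centralizer_iff]
        intro q hq
        rw [hQJ] at hq
        exact Subtype.ext (hbq q.1 (Subgroup.mem_subgroupOf.1 hq))
      · intro a _
        rfl
    · unfold cut
      rw [if_neg hx]
      symm
      apply Finset.sum_eq_zero
      intro y _
      by_cases hy : y ∈ Subgroup.centralizer (QJ : Set N)
      · by_cases hyx : y⁻¹ * x ∈ Subgroup.centralizer (QJ : Set N)
        · exfalso
          apply hx
          have := Subgroup.mul_mem _ hy hyx
          rwa [mul_inv_cancel_left] at this
        · rw [if_neg hyx, mul_zero]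
      · rw [if_neg hy, zero_mul]

/-- blocks and isomorphisms -/
theorem block_equiv {A A' : Type} [Group A] [Group A'] (e : A ≃* A') {B : (A → F) → F}
    (hB : IsBlock B) : IsBlock (fun f : A' → F => B (fun x => f (e x))) := by
  have hres : ∀ f : A' → F, IsClassFun f → IsClassFun (fun x : A => f (e x)) := by
    intro f hf g x
    change f (e (g * x * g⁻¹)) = f (e x)
    rw [map_mul, map_mul, map_inv]
    exact hf _ _
  refine ⟨?_, ?_, ?_, ?_⟩
  · intro f g hf hg
    exact hB.add _ _ (hres f hf) (hres g hg)
  · intro a f hf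
    exact hB.smul a _ (hres f hf)
  · have h := single_comp (F := F) e.toMonoidHom e.injective
      (fun a b => Classical.propDecidable (a = b)) (fun a b => Classical.propDecidable (a = b))
    exact (congrArg B h).trans hB.one
  · intro f g hf hg
    change B (fun x => conv f g (e x)) = B (fun x => f (e x)) * B (fun x => g (e x))
    rw [← hB.mul _ _ (hres f hf) (hres g hg)]
    congr 1
    funext x
    unfold conv
    rw [← finsum_comp_equiv e.toEquiv]
    refine finsum_congr fun y => ?_
    change f (e y) * g ((e y)⁻¹ * e x) = f (e y) * g (e (y⁻¹ * x))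
    rw [map_mul, map_inv]

/-- one step -/
theorem block_step {p : ℕ} [Fact p.Prime] [CharP F p] {G : Type} [Group G] [Finite G]
    {Q H L : Subgroup G} (hQ : IsPGroup p Q) (hQL : Q ≤ L)
    (hmem : ∀ x : G, x ∈ H ↔ x ∈ L ∧ x ∈ Subgroup.normalizer (Q : Set G))
    (hL : ∀ B : (L → F) → F, IsBlock B → IsBlock (fun f : G → F => B (fun x => f x)))
    (B : (H → F) → F) (hB : IsBlock B) : IsBlock (fun f : G → F => B (fun x => f x)) := by
  have : Fintype L := Fintype.ofFinite _
  obtain ⟨N, hN⟩ : ∃ N : Subgroup L, N =
    Subgroup.normalizer ((Q.subgroupOf L : Subgroup L) : Set L) := ⟨_, rfl⟩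
  have hnorm : ∀ x : L, x ∈ N ↔ (x : G) ∈ Subgroup.normalizer (Q : Set G) := by
    intro x
    rw [hN, ← Subgroup.subgroupOf_normalizer_eq hQL, Subgroup.mem_subgroupOf]
  let e : H ≃* N :=
    { toFun := fun x => ⟨⟨x, ((hmem x).1 x.2).1⟩, (hnorm _).2 ((hmem x).1 x.2).2⟩
      invFun := fun y => ⟨((y : L) : G), (hmem _).2 ⟨(y : L).2, (hnorm _).1 y.2⟩⟩
      left_inv := fun x => rfl
      right_inv := fun y => rfl
      map_mul' := fun x y => rfl }
  have h1 : IsBlock (fun f : N → F => B (fun x => f (e x))) := block_equiv e hB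
  have h2 : IsBlock (fun f : L → F => B (fun x : H => f ⟨x, ((hmem x).1 x.2).1⟩)) :=
    block_res (G := L) (p := p) (Q := Q.subgroupOf L) hQ.comap_subtype hN h1
  exact hL _ h2

/-- restriction to the stabiliser of a chain turns blocks into blocks -/
theorem block_chain {p : ℕ} [Fact p.Prime] [CharP F p] {G : Type} [Group G] [Finite G] :
    ∀ (n : ℕ) (σ : Set (Subgroup G)), σ.ncard = n → IsPChain p σ → ∀ H : Subgroup G,
      H = chainStabilizer σ → ∀ B : (H → F) → F, IsBlock B →
        IsBlock (fun f : G → F => B (fun x => f x)) := by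
  intro n
  induction n with
  | zero =>
    intro σ hn hσ H hH B hB
    have h0 : σ = ∅ := (Set.ncard_eq_zero (Set.toFinite σ)).1 hn
    have htop : H = ⊤ := by
      rw [hH, h0]
      unfold chainStabilizer
      simp
    subst htop
    exact block_equiv Subgroup.topEquiv hB
  | succ n ih =>
    intro σ hn hσ H hH B hB
    have hne : σ.Nonempty := by
      rw [← Set.ncard_pos (Set.toFinite σ), hn]
      exact Nat.succ_pos n
    obtain ⟨Q, hQ, hmin⟩ := exists_least hσ.chain hne
    have hcard : (σ \ {Q}).ncard = n := by
      have := Set.ncard_sdiff_singleton_add_one hQ (Set.toFinite σ)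
      omega
    have hτ : IsPChain p (σ \ {Q}) :=
      ⟨hσ.chain.mono Set.sdiff_subset, fun P hP => hσ.isPGroup P hP.1,
        fun P hP => hσ.ne_bot P hP.1⟩
    obtain ⟨L, hL⟩ : ∃ L : Subgroup G, L = chainStabilizer (σ \ {Q}) := ⟨_, rfl⟩
    have hQL : Q ≤ L := by
      intro x hx
      rw [hL]
      unfold chainStabilizer
      simp only [Subgroup.mem_iInf]
      intro P hP
      exact Subgroup.le_normalizer (hmin P hP.1 hx)
    have hmem : ∀ x : G, x ∈ H ↔ x ∈ L ∧ x ∈ Subgroup.normalizer (Q : Set G) := by
      intro x
      rw [hL, hH]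
      unfold chainStabilizer
      simp only [Subgroup.mem_iInf]
      constructor
      · intro h
        exact ⟨fun P hP => h P hP.1, h Q hQ⟩
      · rintro ⟨h1, h2⟩ P hP
        by_cases hPQ : P = Q
        · rw [hPQ]; exact h2
        · exact h1 P ⟨hP, hPQ⟩
    exact block_step (p := p) (hσ.isPGroup Q hQ) hQL hmem (ih (σ \ {Q}) hcard hτ L hL) B hB

end

/-- **`bl(χ)^G` is defined for the irreducible characters `χ` of the stabiliser of a chain.** -/
theorem kblk : S_KBLK := by
  intro p _ F _ _ _ red G _ _ σ χ hσ hχ
  exact block_chain (p := p) σ.ncard σ rfl hσ (chainStabilizer σ) rfl (centralValue red χ)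
    (Pool.Agent.Y930.NV.cvh F red (chainStabilizer σ) χ hχ)

end Pool.Agent.R615.KB
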