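import Pool.Agent.Y63.NV.Wblk930
import Pool.Agent.Y63.NV.FinL286
import Pool.Agent.TH12.Blk.Basic

/-!
# Central elements of the group algebra which vanish modulo a normal `p`-subgroup are nilpotent
-/

set_option autoImplicit false
set_option linter.unusedSectionVars false

open scoped Classical

noncomputable section

namespace Pool.Agent.R615.KB

open Pool.Agent.Y63.NV
open Pool.Agent.Y63.NV.B286 (conv_class single_class cp cp_class block_cp)

section nil

variable {F : Type} [Field F] {H : Type} [Group H] [Fintype H]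

/-- convolution with `z` -/
def Tz (z : H → F) : Module.End F (H → F) where
  toFun θ := fun x => ∑ y : H, z y * θ (y⁻¹ * x)
  map_add' a b := by
    funext x
    simp [mul_add, Finset.sum_add_distrib]
  map_smul' c a := by
    funext x
    simp only [Pi.smul_apply, smul_eq_mul, RingHom.id_apply, Finset.mul_sum]
    exact Finset.sum_congr rfl fun y _ => by ring

lemma Tz_eq (z θ : H → F) : Tz z θ = conv z θ := by
  funext x
  unfold conv
  rw [finsum_eq_sum_of_fintype]
  rfl

lemma Tz_pow (z : H → F) (n : ℕ) : (Tz z ^ n) (Pi.single 1 1) = cp z n := by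
  induction n with
  | zero => rfl
  | succ n ih =>
    rw [pow_succ', Module.End.mul_apply, ih, Tz_eq]
    rfl

/-- left translations -/
def lam : H →* AddMonoid.End (H → F) where
  toFun r :=
    { toFun := fun θ x => θ (r⁻¹ * x)
      map_zero' := rfl
      map_add' := fun _ _ => rfl }
  map_one' := by
    ext θ x
    change θ (1⁻¹ * x) = θ x
    rw [inv_one, one_mul]
  map_mul' r s := by
    ext θ x
    change θ ((r * s)⁻¹ * x) = θ (s⁻¹ * (r⁻¹ * x))
    rw [mul_inv_rev, mul_assoc]

lemma lam_apply (r : H) (θ : H → F) (x : H) : lam r θ x = θ (r⁻¹ * x) := rfl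

lemma Tz_lam {z : H → F} (hz : IsClassFun z) (r : H) (θ : H → F) :
    Tz z (lam r θ) = lam r (Tz z θ) := by
  funext x
  change ∑ y : H, z y * θ (r⁻¹ * (y⁻¹ * x)) = ∑ y : H, z y * θ (y⁻¹ * (r⁻¹ * x))
  refine Fintype.sum_equiv (MulAut.conj r⁻¹).toEquiv _ _ fun y => ?_
  have e1 : (MulAut.conj r⁻¹).toEquiv y = r⁻¹ * y * r := by simp
  rw [e1]
  have e2 : z (r⁻¹ * y * r) = z y := by
    have := hz r⁻¹ y
    simpa using this
  rw [e2]
  congr 2
  group

lemma Tz_pow_lam {z : H → F} (hz : IsClassFun z) (r : H) (n : ℕ) (θ : H → F) :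
    (Tz z ^ n) (lam r θ) = lam r ((Tz z ^ n) θ) := by
  induction n with
  | zero => rfl
  | succ n ih =>
    rw [pow_succ', Module.End.mul_apply, Module.End.mul_apply, ih, Tz_lam hz]

/-- a function which is invariant under the normal subgroup is killed -/
lemma Tz_fixed (R : Subgroup H) [R.Normal] {z : H → F}
    (h0 : ∀ q : H ⧸ R, ∑ y : H, (if (y : H ⧸ R) = q then z y else 0) = 0) {θ : H → F}
    (hθ : ∀ r ∈ R, lam r θ = θ) : Tz z θ = 0 := by
  have : Fintype (H ⧸ R) := Fintype.ofFinite _
  have h1 : ∀ r ∈ R, ∀ x : H, θ (r * x) = θ x := by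
    intro r hr x
    have := congrFun (hθ r⁻¹ (R.inv_mem hr)) x
    rw [lam_apply, inv_inv] at this
    exact this
  funext x
  change ∑ y : H, z y * θ (y⁻¹ * x) = 0
  rw [← Finset.sum_fiberwise_of_maps_to (s := Finset.univ) (t := Finset.univ)
    (g := fun y : H => (y : H ⧸ R)) (fun y _ => Finset.mem_univ _)]
  refine Finset.sum_eq_zero fun q _ => ?_
  obtain ⟨t, rfl⟩ := QuotientGroup.mk_surjective q
  have h2 : ∀ y ∈ Finset.univ.filter (fun y : H => (y : H ⧸ R) = (t : H ⧸ R)),
      z y * θ (y⁻¹ * x) = z y * θ (t⁻¹ * x) := by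
    intro y hy
    have h3 : (y : H ⧸ R) = t := (Finset.mem_filter.1 hy).2
    have h4 : y⁻¹ * t ∈ R := QuotientGroup.eq.1 h3
    have h5 : y⁻¹ * x = (y⁻¹ * t) * (t⁻¹ * x) := by group
    rw [h5, h1 _ h4]
  rw [Finset.sum_congr rfl h2, ← Finset.sum_mul, Finset.sum_filter, h0, zero_mul]

/-- central elements in the kernel of `F[H] → F[H/R]`, `R` a normal `p`-subgroup, are nilpotent -/
theorem cp_eq_zero {p : ℕ} [Fact p.Prime] [CharP F p] (R : Subgroup H) [R.Normal]
    (hR : IsPGroup p R) {z : H → F} (hz : IsClassFun z)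
    (h0 : ∀ q : H ⧸ R, ∑ y : H, (if (y : H ⧸ R) = q then z y else 0) = 0) :
    ∃ n : ℕ, cp z n = 0 := by
  obtain ⟨n, -, hn⟩ := Module.End.exists_ker_pow_eq_ker_pow_succ (Tz z)
  refine ⟨n, ?_⟩
  rw [← Tz_pow]
  by_contra hne
  have hV : ∀ v : H → F, p • v = 0 := by
    intro v
    funext x
    rw [Pi.smul_apply, nsmul_eq_mul, CharP.cast_eq_zero, zero_mul]
    rfl
  obtain ⟨w, hw, hw0, hfix⟩ := Pool.Agent.TH12.Blk.exists_fixed_vector (p := p) (P := R)
    (V := H → F) hR hV
    (((lam (F := F)).comp R.subtype)) (LinearMap.range (Tz z ^ n)).toAddSubgroup (by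
      rintro g _ ⟨θ, rfl⟩
      exact ⟨lam (g : H) θ, Tz_pow_lam hz (g : H) n θ⟩) ((Tz z ^ n) (Pi.single 1 1))
    ⟨_, rfl⟩ hne
  obtain ⟨η, rfl⟩ := hw
  have h1 : Tz z ((Tz z ^ n) η) = 0 := Tz_fixed R h0 fun r hr => hfix ⟨r, hr⟩
  have h2 : η ∈ LinearMap.ker (Tz z ^ n.succ) := by
    rw [LinearMap.mem_ker, pow_succ', Module.End.mul_apply]
    exact h1
  rw [← hn, LinearMap.mem_ker] at h2
  exact hw0 h2

end nil

section blk

variable {F : Type} [Field F] {H : Type} [Group H]

lemma block_zero {B : (H → F) → F} (hB : IsBlock B) : B 0 = 0 := by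
  have h := hB.smul 0 0 (fun _ _ => rfl)
  rw [zero_smul, zero_mul] at h
  exact h

/-- blocks vanish at the central elements in the kernel of `F[H] → F[H/R]` -/
theorem block_ker [Fintype H] {p : ℕ} [Fact p.Prime] [CharP F p] (R : Subgroup H) [R.Normal]
    (hR : IsPGroup p R) {B : (H → F) → F} (hB : IsBlock B) {z : H → F} (hz : IsClassFun z)
    (h0 : ∀ q : H ⧸ R, ∑ y : H, (if (y : H ⧸ R) = q then z y else 0) = 0) : B z = 0 := by
  obtain ⟨n, hn⟩ := cp_eq_zero R hR hz h0
  have h1 := block_cp hB hz n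
  rw [hn, block_zero hB] at h1
  by_contra h
  exact pow_ne_zero n h h1.symm

lemma cut_cent_class {R : Subgroup H} (hR : R.Normal) {f : H → F} (hf : IsClassFun f) :
    IsClassFun (cut f (Subgroup.centralizer (R : Set H))) := by
  intro g x
  unfold cut
  have e : g * x * g⁻¹ ∈ Subgroup.centralizer (R : Set H) ↔
      x ∈ Subgroup.centralizer (R : Set H) := by
    rw [Subgroup.mem_centralizer_iff, Subgroup.mem_centralizer_iff]
    constructor
    · intro h q hq
      have h3 := h (g * q * g⁻¹) (hR.conj_mem q hq g)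
      have h4 : g * (q * x) * g⁻¹ = g * (x * q) * g⁻¹ := by
        have e1 : g * q * g⁻¹ * (g * x * g⁻¹) = g * (q * x) * g⁻¹ := by group
        have e2 : g * x * g⁻¹ * (g * q * g⁻¹) = g * (x * q) * g⁻¹ := by group
        rw [← e1, ← e2]
        exact h3
      exact mul_left_cancel (mul_right_cancel h4)
    · intro h q hq
      have h3 := h (g⁻¹ * q * g) (by
        have := hR.conj_mem q hq g⁻¹
        rwa [inv_inv] at this)
      have e1 : q * (g * x * g⁻¹) = g * (g⁻¹ * q * g * x) * g⁻¹ := by group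
      have e2 : g * x * g⁻¹ * q = g * (x * (g⁻¹ * q * g)) * g⁻¹ := by group
      rw [e1, e2, h3]
  simp only [e]
  split_ifs
  · exact hf g x
  · rfl

/-- the value of a block only depends on the values on the centraliser of a normal
`p`-subgroup -/
theorem block_cut [Fintype H] {p : ℕ} [Fact p.Prime] [CharP F p] (R : Subgroup H) (hRn : R.Normal)
    (hR : IsPGroup p R) {B : (H → F) → F} (hB : IsBlock B) {f : H → F} (hf : IsClassFun f) :
    B f = B (cut f (Subgroup.centralizer (R : Set H))) := by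
  have hc := cut_cent_class hRn hf
  have hd : IsClassFun ((-1 : F) • cut f (Subgroup.centralizer (R : Set H))) := by
    intro g x
    rw [Pi.smul_apply, Pi.smul_apply, hc]
  have hfd : IsClassFun (f + (-1 : F) • cut f (Subgroup.centralizer (R : Set H))) := by
    intro g x
    rw [Pi.add_apply, Pi.add_apply, hf, hd]
  have h1 : B (f + (-1 : F) • cut f (Subgroup.centralizer (R : Set H))) = 0 := by
    refine block_ker (p := p) R hR hB hfd fun q => ?_
    let _ : MulAction R H := MulAction.compHom H (MulAut.conj.comp R.subtype)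
    have hact : ∀ (r : R) (y : H), r • y = (r : H) * y * (r : H)⁻¹ := fun r y => rfl
    rw [Pool.Agent.Y63.NV.B930.sum_fixed (p := p) (Q := R) (Y := H) hR (fun y => if
      (y : H ⧸ R) = q then (f + (-1 : F) • cut f (Subgroup.centralizer (R : Set H))) y else 0) (by
        intro r y
        rw [hact]
        have e1 : (((r : H) * y * (r : H)⁻¹ : H) : H ⧸ R) = (y : H ⧸ R) := by
          rw [QuotientGroup.eq]
          have e2 : ((r : H) * y * (r : H)⁻¹)⁻¹ * y = (r : H) * (y⁻¹ * (r : H)⁻¹ * y) := by group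
          rw [e2]
          refine R.mul_mem r.2 ?_
          have := hRn.conj_mem (r : H)⁻¹ (R.inv_mem r.2) y⁻¹
          rwa [inv_inv] at this
        rw [e1, hfd])]
    refine Finset.sum_eq_zero fun y hy => ?_
    have hy2 := (Pool.Agent.Y63.NV.B930.mem_fx _).1 hy
    have hyc : y ∈ Subgroup.centralizer (R : Set H) := by
      rw [Subgroup.mem_centralizer_iff]
      intro r hr
      have := hy2 ⟨r, hr⟩
      rw [hact] at this
      exact mul_inv_eq_iff_eq_mul.1 this
    split_ifs
    · rw [Pi.add_apply, Pi.smul_apply]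
      unfold cut
      rw [if_pos hyc, smul_eq_mul]
      ring
    · rfl
  rw [hB.add _ _ hf hd, hB.smul _ _ hc] at h1
  linear_combination h1

end blk

end Pool.Agent.R615.KB
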